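import Mathlib
import Pool.Agent.W497.Mld.Defs

/-!
# Minimal log discrepancies of real combinations of Weil divisors, and uniform rational polytopes

An affine variety `X` is an `AffVar K`: its coordinate ring `X.R` is a subalgebra of the function
field `K`, and `X.T` is a basis of the rational vector fields, which fixes the canonical divisor
`K_X`. Prime divisors on normal birational models are given by their valuations `DVal`, see
`Pool.Agent.H436R3.Fol.Defs` and `Pool.Agent.H436R3.KT.Defs`.
-/

set_option autoImplicit false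

namespace Pool.Agent.Q42.UP

open Pool.Agent.H436R3.Fol Pool.Agent.H436R3.KT Pool.Agent.W497.Mld

variable {K : Type} [Field K] [Algebra ℂ K] {X : AffVar K} {m : ℕ}

/-- An effective Weil divisor `a_1 D_1 + ... + a_n D_n` on `X`: the `D_i` are prime divisors on `X`
and the `a_i` are natural numbers. -/
structure WeilDiv (X : AffVar K) where
  n : ℕ
  D : Fin n → DVal K
  on : ∀ i, IsLocalRing' X.R (D i)
  a : Fin n → ℕ

open Classical in
/-- The multiplicity of the prime divisor `v` in the Weil divisor `B`. -/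
noncomputable def WeilDiv.mult (B : WeilDiv X) (v : DVal K) : ℕ :=
  ∑ i, if SameDiv v (B.D i) then B.a i else 0

/-- The multiplicity of the prime divisor `v` in the `ℝ`-divisor `c_1 B_1 + ... + c_m B_m`. -/
noncomputable def combMult (B : Fin m → WeilDiv X) (c : Fin m → ℝ) (v : DVal K) : ℝ :=
  ∑ i, c i * ((B i).mult v : ℝ)

/-- A local equation of `K_X + c_1 B_1 + ... + c_m B_m` at the closed point `P`: near `P` this
divisor is the real linear combination `∑ ρ_i div (g_i)` of principal divisors. It exists if and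
only if the divisor is `ℝ`-Cartier at `P`. -/
structure LocalEq (B : Fin m → WeilDiv X) (c : Fin m → ℝ) (P : Pt X) where
  n : ℕ
  ρ : Fin n → ℝ
  g : Fin n → K
  ne : ∀ i, g i ≠ 0
  eq : ∀ v, OnAt P v → ∃ a : ℤ, IsCanOrd X.T v a ∧
    (a : ℝ) + combMult B c v = ∑ i, ρ i * (v.ord (g i) : ℝ)

/-- `a` is the log discrepancy at `v` of the pair `(X, c_1 B_1 + ... + c_m B_m)`: one plus the order
at `v` of the canonical divisor, minus the order at `v` of the pull-back of
`K_X + c_1 B_1 + ... + c_m B_m`. -/
def LogDisc {B : Fin m → WeilDiv X} {c : Fin m → ℝ} {P : Pt X} (e : LocalEq B c P) (v : DVal K)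
    (a : ℝ) : Prop :=
  ∃ n : ℤ, IsCanOrd X.T v n ∧ a = 1 + (n : ℝ) - ∑ i, e.ρ i * (v.ord (e.g i) : ℝ)

/-- `K_X + c_1 B_1 + ... + c_m B_m` is `ℝ`-Cartier at `P`, and the real number `μ` is the minimal log
discrepancy `mld (X ∋ P, c_1 B_1 + ... + c_m B_m)`: the infimum of the log discrepancies at the
prime divisors over `X` with centre `P`. (Log discrepancies do not depend on the choice of the
local equation.) -/
def Mld (B : Fin m → WeilDiv X) (c : Fin m → ℝ) (P : Pt X) (μ : ℝ) : Prop :=
  ∃ e : LocalEq B c P, IsGLB {a | ∃ v, IsOverGerm P v ∧ LogDisc e v a} μ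

/-- `(X ∋ P, c_1 B_1 + ... + c_m B_m)` is a pair which is `ε`-lc at `P`: all log discrepancies at
prime divisors over `X` with centre `P` are at least `ε`. -/
def EpsLc (B : Fin m → WeilDiv X) (c : Fin m → ℝ) (P : Pt X) (ε : ℝ) : Prop :=
  Nonempty (LocalEq B c P) ∧
    ∀ (e : LocalEq B c P) (v : DVal K) (a : ℝ), IsOverGerm P v → LogDisc e v a → ε ≤ a

/-- The statement of the question for given `ε > 0`, `d`, `m` and `v`, for the closed points of
normal affine varieties over `ℂ`: there are a rational polytope, the convex hull of the points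
`V_j`, and positive numbers `a_j` and `η_j`, such that

1. `∑ a_j = 1`, `∑ a_j V_j = v` (in particular `v` lies in the polytope) and `∑ a_j η_j ≥ ε`;
2. for every pair `(X ∋ P, v_1 B_1 + ... + v_m B_m)` of dimension `d`, `ε`-lc at `P`, with effective
  Weil divisors `B_i`, the function `c ↦ mld (X ∋ P, c_1 B_1 + ... + c_m B_m)` is (affine) linear on
  the polytope, and its value at `V_j` is at least `η_j`. -/
def UniformPolytope (ε : ℝ) (d m : ℕ) (v : Fin m → ℝ) : Prop :=
  ∃ (N : ℕ) (V : Fin N → Fin m → ℚ) (a η : Fin N → ℝ),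
    (∀ j, 0 < a j) ∧ (∀ j, 0 < η j) ∧ ∑ j, a j = 1 ∧ (∀ i, ∑ j, a j * (V j i : ℝ) = v i) ∧
    ε ≤ ∑ j, a j * η j ∧
    ∀ (K : Type) [Field K] [Algebra ℂ K] (X : AffVar K) (P : Pt X) (B : Fin m → WeilDiv X),
      IsNormal X → X.d = d → EpsLc B v P ε →
        (∃ (α : ℝ) (β : Fin m → ℝ), ∀ c ∈ convexHull ℝ (Set.range fun j i => (V j i : ℝ)),
          Mld B c P (α + ∑ i, β i * c i)) ∧
        ∀ j μ, Mld B (fun i => (V j i : ℝ)) P μ → η j ≤ μ

end Pool.Agent.Q42.UP
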