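import Mathlib
import Pool.Agent.Q42.UP.Defs
import Pool.Agent.TH165.ACC.Real
import Pool.Agent.TH165.IDX.Sel
import Pool.Agent.TH202.Mod

/-!
# Toric germs: prime divisors, normality, local equations
-/

set_option autoImplicit false
set_option linter.unusedSectionVars false

namespace Pool.Agent.Q42.UP

open Pool.Agent.H436R3.Fol Pool.Agent.H436R3.KT Pool.Agent.W497.Mld Pool.Agent.TH165.ACC
  Pool.Agent.TH165.LSC Pool.Agent.TH165.IDX MvPolynomial

variable {n m : ℕ} {K : Type} [Field K] [Algebra ℂ K]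
  [Algebra (MvPolynomial (Fin n) ℂ) K] [IsFractionRing (MvPolynomial (Fin n) ℂ) K]
  [IsScalarTower ℂ (MvPolynomial (Fin n) ℂ) K]

theorem ord_eq_of_reg {K : Type} [Field K] [Algebra ℂ K] {v w : DVal K}
    (h : ∀ f, v.Reg f → w.Reg f) : SameDiv v w := by
  obtain ⟨π, hπ, hπ1⟩ := v.surj
  have h0 : ∀ f, f ≠ 0 → v.ord f = 0 → w.ord f = 0 := by
    intro f hf h0
    have h1 := w.ord_nonneg hf (h f (Or.inr h0.ge))
    have h2 := w.ord_nonneg (inv_ne_zero hf) (h f⁻¹ (Or.inr (by rw [v.ord_inv hf, h0]; norm_num)))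
    rw [w.ord_inv hf] at h2
    omega
  have h1 : ∀ f, f ≠ 0 → w.ord f = v.ord f * w.ord π := by
    intro f hf
    have h2 : v.ord (f * π ^ (-v.ord f)) = 0 := by
      rw [v.map_mul _ _ hf (zpow_ne_zero _ hπ), v.ord_zpow hπ, hπ1]
      ring
    have h3 := h0 _ (mul_ne_zero hf (zpow_ne_zero _ hπ)) h2
    rw [w.map_mul _ _ hf (zpow_ne_zero _ hπ), w.ord_zpow hπ] at h3
    linarith
  obtain ⟨f, hf, hf1⟩ := w.surj
  have h4 := w.ord_nonneg hπ (h π (Or.inr (by rw [hπ1]; norm_num)))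
  have h5 := h1 f hf
  rw [hf1] at h5
  have h6 : w.ord π = 1 := Int.eq_one_of_dvd_one h4 ⟨v.ord f, by rw [h5]; ring⟩
  intro f hf
  rw [h1 f hf, h6, mul_one]

theorem SameDiv.monomial {v w : DVal K} (h : SameDiv v w) (hw : IsMonomial n w) :
    IsMonomial n v ∧ (tv v : Fin n → ℤ) = tv w := by
  have htv : (tv v : Fin n → ℤ) = tv w := funext fun i => h _ (cv_ne i)
  refine ⟨fun p hp => ?_, htv⟩
  rw [h _ (jo_ne hp), htv]
  exact hw p hp

/-- monomial valuations are determined by their weights -/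
theorem sameDiv_of_tv {v w : DVal K} (hv : IsMonomial n v) (hw : IsMonomial n w)
    (h : (tv v : Fin n → ℤ) = tv w) : SameDiv v w := by
  have h1 : ∀ p : MvPolynomial (Fin n) ℂ, p ≠ 0 → v.ord (jo (Fin n) K p) =
      w.ord (jo (Fin n) K p) := by
    intro p hp
    have e1 := nu_mon (K := K) hv (k := 1) (w := tv v) zero_le_one (by rw [one_smul]) hp
    have e2 := nu_mon (K := K) hw (k := 1) (w := tv v) zero_le_one (by rw [one_smul, h]) hp
    rw [one_mul] at e1 e2
    rw [← e1, ← e2]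
  intro f hf
  obtain ⟨a, b, hb, rfl⟩ := exists_frac (MvPolynomial (Fin n) ℂ) f
  have ha : a ≠ 0 := by rintro rfl; simp at hf
  rw [← jo_apply, ← jo_apply, v.ord_div (jo_ne ha) (jo_ne hb), w.ord_div (jo_ne ha) (jo_ne hb),
    h1 a ha, h1 b hb]

/-- the prime divisors outside the torus are the toric ones -/
theorem prime_toric {g : ToricGerm n K} {v : DVal K} (hv : IsLocalRing' g.X.R v)
    (h0 : (tv v : Fin n → ℤ) ≠ 0) :
    IsMonomial n v ∧ ∃ i : Fin g.N, (tv v : Fin n → ℤ) = g.E i := by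
  have hin : g.InCone (tv v) := by
    intro m hm
    have h1 : ym K m ∈ g.X.R := by rw [g.hR]; exact ym_mem_LA hm
    have h2 := v.ord_nonneg (ym_ne m) (hv.1 _ h1)
    rwa [ord_ym] at h2
  obtain ⟨d, a, D, z, -, hD, hz, hDz⟩ := simp_int hin
  have hd : 0 < d := by
    rcases Nat.eq_zero_or_pos d with rfl | h
    · rw [Finset.univ_eq_empty, Finset.sum_empty] at hDz
      rcases smul_eq_zero.1 hDz with h1 | h1
      · exact absurd h1 (by exact_mod_cast hD.ne')
      · exact absurd h1 h0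
    · exact h
  let i0 : Fin d := ⟨0, hd⟩
  obtain ⟨w, hw, htw⟩ := exists_mon (K := K) (g.prim (a i0))
  have key : SameDiv v w := by
    apply ord_eq_of_reg
    intro f hf
    by_cases hf0 : f = 0
    · exact Or.inl hf0
    obtain ⟨x, y, hx, hy, hy0, hy1, hxy⟩ := hv.2 f hf
    have hL := (ToricGerm.local_E hw htw).1
    have hwy : w.ord y = 0 := by
      have h1 := w.ord_nonneg hy0 (hL y hy)
      by_contra h2
      have h3 : 0 < w.ord y := by omega
      obtain ⟨M, p, e1, -, e3⟩ := g.rep ⟨y, hy⟩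
      change y * ym K (ex M) = jo (Fin n) K p at e1
      have hp : p ≠ 0 := by
        rintro rfl
        rw [map_zero] at e1
        exact mul_ne_zero hy0 (ym_ne _) e1
      obtain ⟨s, hs, hs1⟩ := nu_mem (tv v) hp
      have h4 := nu_le_ord v hp
      rw [← e1, v.map_mul _ _ hy0 (ym_ne _), hy1, ord_ym, hs1] at h4
      have h5 := (hw p hp).2 s hs
      rw [← e1, w.map_mul _ _ hy0 (ym_ne _), ord_ym, htw] at h5
      have h6 : 0 < pr (ex s - ex M) (g.E (a i0)) := by rw [pr_sub]; omega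
      have h7 : pr (ex s - ex M) (tv v) ≤ 0 := by rw [pr_sub]; omega
      have h8 : (D : ℤ) * pr (ex s - ex M) (tv v) =
          ∑ i, (z i : ℤ) * pr (ex s - ex M) (g.E (a i)) := by
        rw [← pr_smul_right, hDz, pr_sum_right]
        exact Finset.sum_congr rfl fun i _ => by rw [pr_smul_right]
      have h9 : 0 < ∑ i, (z i : ℤ) * pr (ex s - ex M) (g.E (a i)) := by
        apply Finset.sum_pos'
        · intro i _
          exact mul_nonneg (Int.natCast_nonneg _) (e3 s hs (a i))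
        · exact ⟨i0, Finset.mem_univ _, mul_pos (by exact_mod_cast hz i0) h6⟩
      rw [← h8] at h9
      have hD' : (0 : ℤ) < D := by exact_mod_cast hD
      nlinarith
    by_cases hx0 : x = 0
    · exact absurd (hxy.trans hx0) (mul_ne_zero hf0 hy0)
    · right
      have h1 := w.ord_nonneg hx0 (hL x hx)
      rw [← hxy, w.map_mul _ _ hf0 hy0, hwy] at h1
      omega
  have h1 := SameDiv.monomial key hw
  exact ⟨h1.1, a i0, h1.2.trans htw⟩

/-- a polynomial whose prime factors are variables divides a monomial -/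
theorem dvd_monomial {b : MvPolynomial (Fin n) ℂ} (hb : b ≠ 0)
    (h : ∀ p : MvPolynomial (Fin n) ℂ, Prime p → p ∣ b → ∃ i, Associated p (X i)) :
    ∃ s : Fin n →₀ ℕ, b ∣ monomial s 1 := by
  induction b using UniqueFactorizationMonoid.induction_on_prime with
  | h₁ => exact absurd rfl hb
  | h₂ x hx => exact ⟨0, hx.dvd⟩
  | h₃ a p ha hp ih =>
    obtain ⟨s, hs⟩ := ih ha fun q hq hqa => h q hq (dvd_mul_of_dvd_right hqa p)
    obtain ⟨i, hi⟩ := h p hp (dvd_mul_right p a)
    refine ⟨Finsupp.single i 1 + s, ?_⟩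
    have h1 : (monomial (Finsupp.single i 1 + s) (1 : ℂ)) = X i * monomial s 1 := by
      rw [X, monomial_mul, one_mul]
    rw [h1]
    exact mul_dvd_mul hi.dvd hs

/-- toric varieties are normal -/
theorem normal (g : ToricGerm n K) : IsNormal g.X := by
  classical
  intro f hf
  by_cases hf0 : f = 0
  · rw [hf0]; exact zero_mem _
  obtain ⟨a, ⟨b, hb⟩, hrel, hab⟩ :=
    IsFractionRing.exists_reduced_fraction (A := MvPolynomial (Fin n) ℂ) (K := K) f
  have hb0 : b ≠ 0 := nonZeroDivisors.ne_zero hb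
  have hab' : f = jo (Fin n) K a / jo (Fin n) K b := by
    rw [← hab, IsFractionRing.mk'_eq_div]
    rfl
  have ha0 : a ≠ 0 := by
    rintro rfl
    rw [map_zero, zero_div] at hab'
    exact hf0 hab'
  have hprime : ∀ p : MvPolynomial (Fin n) ℂ, Prime p → p ∣ b → ∃ i, Associated p (X i) := by
    intro p hp hpb
    by_contra hcon
    push Not at hcon
    have hpa : ¬ p ∣ a := fun hpa => hp.not_isUnit (hrel hpa hpb)
    have h0 : ∀ i : Fin n, (valP K p hp).ord (cv K i) = 0 := by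
      intro i
      refine valP_other hp (X_ne_zero i) fun h => hcon i ?_
      exact hp.associated_of_dvd X_prime h
    have hL := g.local_prime hp h0
    have h1 := TH202.reg_of_isIntegral (valP K p hp) hL.1 hf
    have h2 := (valP K p hp).ord_nonneg hf0 h1
    have hvb : (valP K p hp).ord (jo (Fin n) K b) = (multiplicity p b : ℤ) := valP_ord hp hb0
    rw [hab', (valP K p hp).ord_div (jo_ne ha0) (jo_ne hb0), valP_other hp ha0 hpa, hvb] at h2
    have h3 : multiplicity p b ≠ 0 := by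
      intro h3
      exact (multiplicity_eq_zero.1 h3) hpb
    omega
  obtain ⟨s, c, hc⟩ := dvd_monomial hb0 hprime
  have hf1 : f = jo (Fin n) K (a * c) * ym K (-ex s) := by
    have h1 : jo (Fin n) K b * jo (Fin n) K c = ym K (ex s) := by
      rw [ym_ex, hc, map_mul]
    have h2 : jo (Fin n) K b ≠ 0 := jo_ne hb0
    rw [hab', map_mul, ym_neg, ← h1]
    have h3 : jo (Fin n) K c ≠ 0 := by
      intro h3
      rw [h3, mul_zero] at h1
      exact ym_ne _ h1.symm
    field_simp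
  rw [g.hR, hf1]
  apply jo_mul_mem_LA
  intro t ht i
  obtain ⟨v, hv, htv⟩ := exists_mon (K := K) (g.prim i)
  have hreg := TH202.reg_of_isIntegral v (ToricGerm.local_E hv htv).1 hf
  have h1 := v.ord_nonneg hf0 hreg
  have hac : a * c ≠ 0 := by
    intro h
    rw [h] at ht
    simp at ht
  have h2 := (hv _ hac).2 t ht
  rw [hf1, v.map_mul _ _ (jo_ne hac) (ym_ne _), ord_ym, pr_neg] at h1
  rw [pr_add, pr_neg, ← htv]
  omega

theorem overAt_of_onAt {g : ToricGerm n K} {v : DVal K} (h : OnAt g.P v) : OverAt g.P v :=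
  ⟨⟨g.X.R, g.X.fg, le_rfl, h.1⟩, h.2⟩

theorem overAt_of_overGerm {g : ToricGerm n K} {v : DVal K} (h : IsOverGerm g.P v) :
    OverAt g.P v :=
  ⟨h.1, fun f hf => (h.2 f).1 hf⟩

/-- Any local equation of a toric divisor has the expected orders: for a simplicial cone with the
dual vectors `Q i`, `K_X + B` has the coefficient `-1 + β i` along the toric divisor `E i`. -/
theorem LocalEq.val {g : ToricGerm n K} {B : Fin m → WeilDiv g.X} {c : Fin m → ℝ}
    (e : LocalEq B c g.P) {D : ℤ} {Q : Fin g.N → Fin n → ℤ} (hD : 0 < D)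
    (hQ : ∀ i j, pr (Q i) (g.E j) = if j = i then D else 0) (β : Fin g.N → ℝ)
    (hβ : ∀ (w : DVal K) (i : Fin g.N), IsMonomial n w → (tv w : Fin n → ℤ) = g.E i →
      combMult B c w = β i)
    (hB : ∀ w : DVal K, (tv w : Fin n → ℤ) = 0 → combMult B c w = 0) {v : DVal K}
    (hv : OverAt g.P v) :
    ∑ k, e.ρ k * (v.ord (e.g k) : ℝ) = ∑ i, (pr (Q i) (tv v) : ℝ) / D * (-1 + β i) := by
  classical
  obtain ⟨F, c', hFp, hFd, hc⟩ := fact (n := n) e.ρ e.g e.ne
  have h1 : ∀ p ∈ F, Thr g p → c' p = 0 := by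
    rintro p hp ⟨hpp, hcv, hon⟩
    obtain ⟨b, hb, h3⟩ := e.eq _ hon
    have hL := g.local_prime hpp hcv
    have h4 : b = 0 := hb.unique (can_unit g.e g.hT (by rw [← g.hR]; exact hL) hcv)
    have h5 : ∑ q ∈ F, c' q * ((valP K p hpp).ord (jo (Fin n) K q) : ℝ) = c' p := by
      rw [Finset.sum_eq_single p]
      · rw [valP_self]; push_cast; ring
      · intro q hq hqp
        rw [valP_other hpp (hFp q hq).ne_zero fun h => hqp (hFd p hp q hq h).symm]
        push_cast; ring
      · intro h; exact absurd hp h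
    rw [hc, h5, h4, Int.cast_zero, zero_add, hB _ (funext hcv)] at h3
    exact h3.symm
  have h2 : ∀ p : MvPolynomial (Fin n) ℂ, ∃ M : Fin n → ℤ, p ∈ F → ¬ Thr g p →
      ∀ v : DVal K, OverAt g.P v → v.ord (jo (Fin n) K p) = pr M (tv v) := by
    intro p
    by_cases h : p ∈ F ∧ ¬ Thr g p
    · obtain ⟨M, -, hM⟩ := nonthr_lin (K := K) (g := g) (hFp p h.1) h.2
      exact ⟨M, fun _ _ => hM⟩
    · exact ⟨0, fun h3 h4 => absurd ⟨h3, h4⟩ h⟩
  choose M hM using h2
  have key : ∀ v : DVal K, OverAt g.P v → ∑ k, e.ρ k * (v.ord (e.g k) : ℝ) =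
      ∑ p ∈ F, c' p * (pr (M p) (tv v) : ℝ) := by
    intro v hv
    rw [hc]
    refine Finset.sum_congr rfl fun p hp => ?_
    by_cases h : Thr g p
    · rw [h1 p hp h, zero_mul, zero_mul]
    · rw [hM p hp h v hv]
  have hE : ∀ i, ∑ p ∈ F, c' p * (pr (M p) (g.E i) : ℝ) = -1 + β i := by
    intro i
    obtain ⟨w, hw, htw⟩ := exists_mon (K := K) (g.prim i)
    have hon := ToricGerm.onAt_E hw htw
    obtain ⟨b, hb, h3⟩ := e.eq _ hon
    have h4 : b = -1 := hb.unique (can_mon g.e g.hT hw)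
    rw [key w (overAt_of_onAt hon), htw, h4, hβ w i hw htw] at h3
    rw [← h3]
    push_cast
    ring
  rw [key v hv]
  have hco := simp_coord hD hQ (tv v)
  have h3 : ∀ p, (pr (M p) (tv v) : ℝ) =
      ∑ i, (pr (Q i) (tv v) : ℝ) / D * (pr (M p) (g.E i) : ℝ) := fun p => coord_pr hco _
  simp only [h3, ← hE, Finset.mul_sum]
  rw [Finset.sum_comm]
  exact Finset.sum_congr rfl fun i _ => Finset.sum_congr rfl fun p _ => by ring

/-- the local equation of a toric divisor -/
noncomputable def mkEq {g : ToricGerm n K} {B : Fin m → WeilDiv g.X} {c : Fin m → ℝ}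
    {D : ℤ} {Q : Fin g.N → Fin n → ℤ} (hD : 0 < D)
    (hQ : ∀ i j, pr (Q i) (g.E j) = if j = i then D else 0) (β : Fin g.N → ℝ)
    (hβ : ∀ (w : DVal K) (i : Fin g.N), IsMonomial n w → (tv w : Fin n → ℤ) = g.E i →
      combMult B c w = β i)
    (hB : ∀ w : DVal K, (tv w : Fin n → ℤ) = 0 → combMult B c w = 0) : LocalEq B c g.P where
  n := g.N
  ρ := fun i => (-1 + β i) / D
  g := fun i => ym K (Q i)
  ne := fun i => ym_ne _
  eq := by
    intro v hv
    have hD' : (D : ℝ) ≠ 0 := by exact_mod_cast hD.ne'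
    by_cases h0 : (tv v : Fin n → ℤ) = 0
    · refine ⟨0, can_unit g.e g.hT (by rw [← g.hR]; exact hv.1) (fun i => congrFun h0 i), ?_⟩
      rw [hB v h0, Int.cast_zero, zero_add]
      symm
      apply Finset.sum_eq_zero
      intro i _
      rw [ord_ym, h0]
      have : pr (Q i) 0 = 0 := by simp [pr]
      rw [this, Int.cast_zero, mul_zero]
    · obtain ⟨hmon, j, hj⟩ := prime_toric hv.1 h0
      refine ⟨-1, can_mon g.e g.hT hmon, ?_⟩
      rw [hβ v j hmon hj, Finset.sum_eq_single j]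
      · rw [ord_ym, hj, hQ, if_pos rfl]
        push_cast
        field_simp
      · intro i _ hij
        rw [ord_ym, hj, hQ, if_neg hij.symm, Int.cast_zero, mul_zero]
      · intro h; exact absurd (Finset.mem_univ _) h

/-- log discrepancies over the germ are at least the toric ones -/
theorem logDisc_ge {g : ToricGerm n K} {B : Fin m → WeilDiv g.X} {c : Fin m → ℝ}
    (e : LocalEq B c g.P) {D : ℤ} {Q : Fin g.N → Fin n → ℤ} (hD : 0 < D)
    (hQ : ∀ i j, pr (Q i) (g.E j) = if j = i then D else 0) (β : Fin g.N → ℝ)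
    (hβ : ∀ (w : DVal K) (i : Fin g.N), IsMonomial n w → (tv w : Fin n → ℤ) = g.E i →
      combMult B c w = β i)
    (hB : ∀ w : DVal K, (tv w : Fin n → ℤ) = 0 → combMult B c w = 0) {v : DVal K}
    (hv : IsOverGerm g.P v) {a : ℝ} (ha : LogDisc e v a) :
    ∑ i, (pr (Q i) (tv v) : ℝ) / D * (1 - β i) ≤ a := by
  obtain ⟨k, hk, rfl⟩ := ha
  rw [e.val hD hQ β hβ hB (overAt_of_overGerm hv)]
  obtain ⟨⟨A, hA0, hA, hAk⟩, -⟩ := hk
  have h1 := can_ge_neg g.e g.hT v A hA0 hA
  rw [hAk] at h1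
  have h2 : (-1 : ℝ) ≤ k := by exact_mod_cast h1
  have h3 : ∑ i, (pr (Q i) (tv v) : ℝ) / D * (1 - β i) =
      -∑ i, (pr (Q i) (tv v) : ℝ) / D * (-1 + β i) := by
    rw [← Finset.sum_neg_distrib]
    exact Finset.sum_congr rfl fun i _ => by ring
  rw [h3]
  linarith

/-- log discrepancies at monomial valuations -/
theorem logDisc_tor {g : ToricGerm n K} {B : Fin m → WeilDiv g.X} {c : Fin m → ℝ}
    (e : LocalEq B c g.P) {D : ℤ} {Q : Fin g.N → Fin n → ℤ} (hD : 0 < D)
    (hQ : ∀ i j, pr (Q i) (g.E j) = if j = i then D else 0) (β : Fin g.N → ℝ)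
    (hβ : ∀ (w : DVal K) (i : Fin g.N), IsMonomial n w → (tv w : Fin n → ℤ) = g.E i →
      combMult B c w = β i)
    (hB : ∀ w : DVal K, (tv w : Fin n → ℤ) = 0 → combMult B c w = 0) {v : DVal K}
    (hv : IsOverGerm g.P v) (hm : IsMonomial n v) :
    LogDisc e v (∑ i, (pr (Q i) (tv v) : ℝ) / D * (1 - β i)) := by
  refine ⟨-1, can_mon g.e g.hT hm, ?_⟩
  rw [e.val hD hQ β hβ hB (overAt_of_overGerm hv)]
  have h3 : ∑ i, (pr (Q i) (tv v) : ℝ) / D * (1 - β i) =
      -∑ i, (pr (Q i) (tv v) : ℝ) / D * (-1 + β i) := by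
    rw [← Finset.sum_neg_distrib]
    exact Finset.sum_congr rfl fun i _ => by ring
  rw [h3]
  push_cast
  ring

end Pool.Agent.Q42.UP
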