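import Mathlib
import Pool.Agent.Q42.UP.Tor

/-!
# The cone of the cyclic quotient singularities `1 / r (r - 1 - 2 k, 1, k)`, `r = k l - 1`

In the coordinates of a basis of the lattice, the cone is generated by `E 0, ..., E (s + 2)`; its
dual vectors are `Q i`.
-/

set_option autoImplicit false

namespace Pool.Agent.Q42.UP

open Pool.Agent.H436R3.Fol Pool.Agent.H436R3.KT Pool.Agent.W497.Mld Pool.Agent.TH165.ACC
  Pool.Agent.TH165.LSC Pool.Agent.TH165.IDX MvPolynomial

variable {s : ℕ}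

/-- the vector `(a, b, c, u)` -/
def vec (a b c : ℤ) (u : Fin s → ℤ) : Fin (s + 3) → ℤ := Fin.cons a (Fin.cons b (Fin.cons c u))

theorem pr_vec (a b c a' b' c' : ℤ) (u u' : Fin s → ℤ) :
    pr (vec a b c u) (vec a' b' c' u') = a * a' + b * b' + c * c' + ∑ i, u i * u' i := by
  rw [pr, Fin.sum_univ_succ, Fin.sum_univ_succ, Fin.sum_univ_succ]
  simp only [vec, Fin.cons_zero, Fin.cons_succ]
  ring

theorem exists_vec (x : Fin (s + 3) → ℤ) : ∃ (a b c : ℤ) (u : Fin s → ℤ), x = vec a b c u := by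
  refine ⟨x 0, x 1, x 2, fun i => x i.succ.succ.succ, ?_⟩
  funext i
  refine Fin.cases rfl (fun i => Fin.cases rfl (fun i => Fin.cases rfl (fun i => rfl) i) i) i

/-- the generators of the edges of the cone -/
def EE (k l : ℤ) (s : ℕ) : Fin (s + 3) → Fin (s + 3) → ℤ :=
  Fin.cons (vec 1 0 0 0) (Fin.cons (vec 1 (-1) k 0) (Fin.cons (vec 2 l (-1) 0)
    fun i => vec 0 0 0 (Pi.single i 1)))

/-- the dual vectors -/
def QQ (k l : ℤ) (s : ℕ) : Fin (s + 3) → Fin (s + 3) → ℤ :=
  Fin.cons (vec (k * l - 1) (-1 - 2 * k) (-l - 2) 0) (Fin.cons (vec 0 1 l 0)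
    (Fin.cons (vec 0 k 1 0) fun i => vec 0 0 0 (Pi.single i (k * l - 1))))

theorem fin3_cases {P : Fin (s + 3) → Prop} (h0 : P 0) (h1 : P (Fin.succ 0))
    (h2 : P (Fin.succ (Fin.succ 0))) (h3 : ∀ i : Fin s, P i.succ.succ.succ) (i : Fin (s + 3)) :
    P i :=
  Fin.cases h0 (fun i => Fin.cases h1 (fun i => Fin.cases h2 h3 i) i) i

theorem sum_single (i j : Fin s) (a b : ℤ) : ∑ t, (Pi.single i a : Fin s → ℤ) t *
    (Pi.single j b : Fin s → ℤ) t = if j = i then a * b else 0 := by
  rw [Finset.sum_eq_single i]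
  · by_cases h : j = i
    · subst h; simp
    · rw [if_neg h, Pi.single_eq_same, Pi.single_eq_of_ne (Ne.symm h), mul_zero]
  · intro t _ ht
    rw [Pi.single_eq_of_ne ht, zero_mul]
  · intro h; exact absurd (Finset.mem_univ _) h

set_option linter.unusedSimpArgs false in
theorem QQ_EE (k l : ℤ) (s : ℕ) (i j : Fin (s + 3)) :
    pr (QQ k l s i) (EE k l s j) = if j = i then k * l - 1 else 0 := by
  have hz : ∀ {k : ℕ} (i : Fin k), (0 = Fin.succ i) = False := fun i =>
    eq_false (Fin.succ_ne_zero i).symm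
  have hz' : ∀ {k : ℕ} (i : Fin k), (Fin.succ i = 0) = False := fun i =>
    eq_false (Fin.succ_ne_zero i)
  induction i using fin3_cases with
  | h0 =>
    induction j using fin3_cases <;>
      simp only [QQ, EE, Fin.cons_zero, Fin.cons_succ, pr_vec, hz, hz', Fin.succ_inj, if_true,
        if_false, Pi.zero_apply, mul_zero, zero_mul, Finset.sum_const_zero] <;> ring
  | h1 =>
    induction j using fin3_cases <;>
      simp only [QQ, EE, Fin.cons_zero, Fin.cons_succ, pr_vec, hz, hz', Fin.succ_inj, if_true,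
        if_false, Pi.zero_apply, mul_zero, zero_mul, Finset.sum_const_zero] <;> ring
  | h2 =>
    induction j using fin3_cases <;>
      simp only [QQ, EE, Fin.cons_zero, Fin.cons_succ, pr_vec, hz, hz', Fin.succ_inj, if_true,
        if_false, Pi.zero_apply, mul_zero, zero_mul, Finset.sum_const_zero] <;> ring
  | h3 i =>
    induction j using fin3_cases <;>
      simp only [QQ, EE, Fin.cons_zero, Fin.cons_succ, pr_vec, hz, hz', Fin.succ_inj, if_true,
        if_false, Pi.zero_apply, mul_zero, zero_mul, Finset.sum_const_zero, sum_single, zero_add,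
        mul_one]

theorem EE_prim (k l : ℤ) (s : ℕ) (i : Fin (s + 3)) : Prim (EE k l s i) := by
  induction i using fin3_cases with
  | h0 => exact ⟨vec 1 0 0 0, by simp only [EE, Fin.cons_zero, pr_vec]; simp⟩
  | h1 => exact ⟨vec 1 0 0 0, by simp only [EE, Fin.cons_zero, Fin.cons_succ, pr_vec]; simp⟩
  | h2 => exact ⟨vec 1 0 1 0, by simp only [EE, Fin.cons_zero, Fin.cons_succ, pr_vec]; simp⟩
  | h3 i =>
    refine ⟨vec 0 0 0 (Pi.single i 1), ?_⟩
    simp only [EE, Fin.cons_succ, pr_vec, sum_single]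
    simp

theorem EE_edge {k l : ℤ} (hr : 0 < k * l - 1) (s : ℕ) (i : Fin (s + 3)) :
    ∃ Q : Fin (s + 3) → ℤ, pr Q (EE k l s i) = 0 ∧ ∀ j, j ≠ i → 0 < pr Q (EE k l s j) := by
  classical
  have h : ∀ j, pr (∑ t ∈ Finset.univ.erase i, QQ k l s t) (EE k l s j) =
      ∑ t ∈ Finset.univ.erase i, if j = t then k * l - 1 else 0 := by
    intro j
    have h1 : ∀ T : Finset (Fin (s + 3)), pr (∑ t ∈ T, QQ k l s t) (EE k l s j) =
        ∑ t ∈ T, pr (QQ k l s t) (EE k l s j) := by
      intro T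
      induction T using Finset.induction_on with
      | empty => rw [Finset.sum_empty, Finset.sum_empty, pr_zero]
      | insert a T ha ih => rw [Finset.sum_insert ha, Finset.sum_insert ha, pr_add, ih]
    rw [h1]
    exact Finset.sum_congr rfl fun t _ => QQ_EE k l s t j
  refine ⟨_, (h i).trans ?_, fun j hj => ?_⟩
  · exact Finset.sum_eq_zero fun t ht => if_neg (Finset.ne_of_mem_erase ht).symm
  · rw [h, Finset.sum_ite_eq, if_pos (Finset.mem_erase.2 ⟨hj, Finset.mem_univ _⟩)]
    exact hr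

theorem EE_pointed {k l : ℤ} (hr : 0 < k * l - 1) (s : ℕ) :
    ∃ Q : Fin (s + 3) → ℤ, ∀ j, 0 < pr Q (EE k l s j) := by
  obtain ⟨Q, hQ0, hQ⟩ := EE_edge hr s 0
  refine ⟨Q + QQ k l s 0, fun j => ?_⟩
  rw [pr_add, QQ_EE]
  by_cases h : j = 0
  · rw [if_pos h, h, hQ0, zero_add]
    exact hr
  · rw [if_neg h, add_zero]
    exact hQ j h

theorem EE_full {k l : ℤ} (hr : 0 < k * l - 1) (s : ℕ) (m : Fin (s + 3) → ℤ)
    (h : ∀ i, pr m (EE k l s i) = 0) : m = 0 := by
  obtain ⟨a, b, c, u, rfl⟩ := exists_vec m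
  have h0 := h 0
  have h1 := h (Fin.succ 0)
  have h2 := h (Fin.succ (Fin.succ 0))
  have h3 := fun i : Fin s => h i.succ.succ.succ
  simp only [EE, Fin.cons_zero, Fin.cons_succ, pr_vec, Pi.zero_apply, mul_zero,
    Finset.sum_const_zero] at h0 h1 h2 h3
  have ha : a = 0 := by linarith
  subst ha
  have hb : b = k * c := by linarith
  subst hb
  have hc : c * (k * l - 1) = 0 := by linarith
  have hc0 : c = 0 := (mul_eq_zero.1 hc).resolve_right hr.ne'
  subst hc0
  have hu : u = 0 := by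
    funext i
    have := h3 i
    rw [Finset.sum_eq_single i] at this
    · simpa using this
    · intro t _ ht
      rw [Pi.single_eq_of_ne ht, mul_zero]
    · intro h; exact absurd (Finset.mem_univ _) h
  subst hu
  funext i
  induction i using fin3_cases <;>
    simp only [vec, Fin.cons_zero, Fin.cons_succ, mul_zero, Pi.zero_apply]

end Pool.Agent.Q42.UP
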