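import Mathlib
import Pool.Agent.Q42.UP.Ex

/-!
# The minimal log discrepancies of the example
-/

set_option autoImplicit false
set_option linter.unusedSectionVars false

namespace Pool.Agent.Q42.UP

open Pool.Agent.H436R3.Fol Pool.Agent.H436R3.KT Pool.Agent.W497.Mld Pool.Agent.TH165.ACC
  Pool.Agent.TH165.LSC Pool.Agent.TH165.IDX MvPolynomial

variable {s : ℕ}

theorem pr_Q0 (k l j a b : ℤ) (u : Fin s → ℤ) : pr (QQ k l s 0) (vec j a b u) =
    (k * l - 1) * j - (a + l * b) - 2 * (k * a + b) := by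
  simp only [QQ, Fin.cons_zero, pr_vec, Pi.zero_apply, zero_mul, Finset.sum_const_zero]
  ring

theorem pr_Q1 (k l j a b : ℤ) (u : Fin s → ℤ) : pr (QQ k l s (Fin.succ 0)) (vec j a b u) =
    a + l * b := by
  simp only [QQ, Fin.cons_zero, Fin.cons_succ, pr_vec, Pi.zero_apply, zero_mul,
    Finset.sum_const_zero]
  ring

theorem pr_Q2 (k l j a b : ℤ) (u : Fin s → ℤ) :
    pr (QQ k l s (Fin.succ (Fin.succ 0))) (vec j a b u) = k * a + b := by
  simp only [QQ, Fin.cons_zero, Fin.cons_succ, pr_vec, Pi.zero_apply, zero_mul,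
    Finset.sum_const_zero]
  ring

theorem pr_Q3 (k l j a b : ℤ) (u : Fin s → ℤ) (i : Fin s) :
    pr (QQ k l s i.succ.succ.succ) (vec j a b u) = (k * l - 1) * u i := by
  simp only [QQ, Fin.cons_succ, pr_vec, zero_mul, zero_add]
  rw [Finset.sum_eq_single i]
  · rw [Pi.single_eq_same]
  · intro t _ ht
    rw [Pi.single_eq_of_ne ht, zero_mul]
  · intro h; exact absurd (Finset.mem_univ _) h

/-- log discrepancies of monomial valuations -/
theorem phi_eq {k l : ℤ} (hr : 0 < k * l - 1) (c : ℝ) (j a b : ℤ) (u : Fin s → ℤ) :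
    ∑ i : Fin (s + 3), (pr (QQ k l s i) (vec j a b u) : ℝ) / ((k * l - 1 : ℤ) : ℝ) *
      (1 - if i = 0 then c else 0) =
    (1 - c) * j + (c * ((a : ℝ) + l * b) + (2 * c - 1) * ((k : ℝ) * a + b)) / ((k : ℝ) * l - 1) +
      ∑ i, (u i : ℝ) := by
  have hr' : ((k : ℝ) * l - 1) ≠ 0 := by exact_mod_cast hr.ne'
  rw [Fin.sum_univ_succ, Fin.sum_univ_succ, Fin.sum_univ_succ, pr_Q0, pr_Q1, pr_Q2]
  have h3 : ∀ i : Fin s, ((pr (QQ k l s i.succ.succ.succ) (vec j a b u) : ℤ) : ℝ) /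
      ((k * l - 1 : ℤ) : ℝ) * (1 - if i.succ.succ.succ = 0 then c else 0) = (u i : ℝ) := by
    intro i
    rw [pr_Q3, if_neg (Fin.succ_ne_zero _)]
    push_cast
    field_simp
    ring
  rw [Finset.sum_congr rfl fun i _ => h3 i, if_pos rfl, if_neg (Fin.succ_ne_zero _),
    if_neg (Fin.succ_ne_zero _)]
  push_cast
  field_simp
  ring

/-- the minimal log discrepancy -/
noncomputable def mu (k l : ℤ) (s : ℕ) (c : ℝ) : ℝ :=
  (1 - c) + min (c + (2 * c - 1) * k) (c * l + (2 * c - 1)) / ((k : ℝ) * l - 1) + s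

theorem ineq {k l : ℤ} (hk : 2 ≤ k) (hl : 4 ≤ l) {c : ℝ} (h1 : 1 / 2 ≤ c) (h2 : c ≤ 1)
    {j a b : ℤ} {u : Fin s → ℤ} (h0 : 0 < (k * l - 1) * j - (a + l * b) - 2 * (k * a + b))
    (hA : 0 < a + l * b) (hB : 0 < k * a + b) (hu : ∀ i, 0 < u i) :
    mu k l s c ≤ (1 - c) * j +
      (c * ((a : ℝ) + l * b) + (2 * c - 1) * ((k : ℝ) * a + b)) / ((k : ℝ) * l - 1) +
      ∑ i, (u i : ℝ) := by
  have hkl : 8 ≤ k * l := by nlinarith
  have hr : (0 : ℤ) < k * l - 1 := by omega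
  have hr' : (0 : ℝ) < (k : ℝ) * l - 1 := by exact_mod_cast hr
  have hj : 1 ≤ j := by
    by_contra h
    have h3 : j ≤ 0 := by omega
    nlinarith
  have hj' : (1 : ℝ) ≤ j := by exact_mod_cast hj
  have hus : (s : ℝ) ≤ ∑ i, (u i : ℝ) := by
    have h3 : ∑ _i : Fin s, (1 : ℝ) ≤ ∑ i, (u i : ℝ) :=
      Finset.sum_le_sum fun i _ => by exact_mod_cast hu i
    simpa using h3
  have key : (k ≤ k * a + b ∧ 1 ≤ a + l * b) ∨ (1 ≤ k * a + b ∧ l ≤ a + l * b) := by
    rcases lt_trichotomy a 0 with ha | ha | ha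
    · right
      refine ⟨by omega, ?_⟩
      have h3 : 1 - k * a ≤ b := by omega
      nlinarith [mul_le_mul_of_nonneg_left h3 (by omega : (0 : ℤ) ≤ l)]
    · subst ha
      right
      have hb : 1 ≤ b := by
        rw [mul_zero, zero_add] at hB
        omega
      exact ⟨by omega, by nlinarith⟩
    · rcases lt_or_ge b 0 with hb | hb
      · left
        refine ⟨?_, by omega⟩
        have h3 : 1 - l * b ≤ a := by omega
        nlinarith [mul_le_mul_of_nonneg_left h3 (by omega : (0 : ℤ) ≤ k)]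
      · left
        exact ⟨by nlinarith, by omega⟩
  have hmain : min (c + (2 * c - 1) * k) (c * l + (2 * c - 1)) ≤
      c * ((a : ℝ) + l * b) + (2 * c - 1) * ((k : ℝ) * a + b) := by
    have hc : 0 ≤ 2 * c - 1 := by linarith
    have hc' : 0 ≤ c := by linarith
    rcases key with ⟨h3, h4⟩ | ⟨h3, h4⟩
    · have h3' : (k : ℝ) ≤ (k : ℝ) * a + b := by exact_mod_cast h3
      have h4' : (1 : ℝ) ≤ (a : ℝ) + l * b := by exact_mod_cast h4
      refine (min_le_left _ _).trans ?_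
      have := mul_le_mul_of_nonneg_left h3' hc
      have := mul_le_mul_of_nonneg_left h4' hc'
      linarith
    · have h3' : (1 : ℝ) ≤ (k : ℝ) * a + b := by exact_mod_cast h3
      have h4' : (l : ℝ) ≤ (a : ℝ) + l * b := by exact_mod_cast h4
      refine (min_le_right _ _).trans ?_
      have := mul_le_mul_of_nonneg_left h3' hc
      have := mul_le_mul_of_nonneg_left h4' hc'
      linarith
  have h5 := div_le_div_of_nonneg_right hmain hr'.le
  have h6 : (1 - c) * 1 ≤ (1 - c) * j := mul_le_mul_of_nonneg_left hj' (by linarith)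
  rw [mu]
  linarith

variable {K : Type} [Field K] [Algebra ℂ K]
  [Algebra (MvPolynomial (Fin (s + 3)) ℂ) K] [IsFractionRing (MvPolynomial (Fin (s + 3)) ℂ) K]
  [IsScalarTower ℂ (MvPolynomial (Fin (s + 3)) ℂ) K]

/-- points with positive coordinates are interior points of the cone -/
theorem inter_of_pos {g : ToricGerm (s + 3) K} {D : ℤ} {Q : Fin g.N → Fin (s + 3) → ℤ}
    (hD : 0 < D) (hQ : ∀ i j, pr (Q i) (g.E j) = if j = i then D else 0)
    {u : Fin (s + 3) → ℤ} (hu : ∀ i, 0 < pr (Q i) u) : g.Inter u := by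
  intro m hm hm0
  have hco := simp_coord hD hQ u
  have h1 : (pr m u : ℝ) = ∑ i, (pr (Q i) u : ℝ) / D * (pr m (g.E i) : ℝ) := coord_pr hco m
  have hD' : (0 : ℝ) < D := by exact_mod_cast hD
  have h2 : ∀ i, 0 < (pr (Q i) u : ℝ) / D := fun i => div_pos (by exact_mod_cast hu i) hD'
  have h3 : ∃ i, pr m (g.E i) ≠ 0 := by
    by_contra h
    push Not at h
    exact hm0 (g.full m h)
  obtain ⟨i, hi⟩ := h3
  have h4 : 0 < pr m (g.E i) := lt_of_le_of_ne (hm i) (Ne.symm hi)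
  have h5 : (0 : ℝ) < pr m u := by
    rw [h1]
    apply Finset.sum_pos'
    · intro t _
      exact mul_nonneg (h2 t).le (by exact_mod_cast hm t)
    · exact ⟨i, Finset.mem_univ _, mul_pos (h2 i) (by exact_mod_cast h4)⟩
  exact_mod_cast h5

end Pool.Agent.Q42.UP
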