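import Mathlib
import Pool.Agent.Q42.UP.Germ

/-!
# The minimal log discrepancies are not linear
-/

set_option autoImplicit false
set_option linter.unusedSectionVars false

namespace Pool.Agent.Q42.UP

open Pool.Agent.H436R3.Fol Pool.Agent.H436R3.KT Pool.Agent.W497.Mld Pool.Agent.TH165.ACC
  Pool.Agent.TH165.LSC Pool.Agent.TH165.IDX MvPolynomial

/-- **The example.** For all `k ≥ 2`, `l ≥ 4` there is a pair `(X ∋ P, c B)`, with `X` normal of
dimension `s + 3`, with minimal log discrepancy `mu k l s c` for `1 / 2 ≤ c ≤ 1`. -/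
theorem example_germ {k l : ℤ} (hk : 2 ≤ k) (hl : 4 ≤ l) (s : ℕ) :
    ∃ (X : AffVar (FractionRing (MvPolynomial (Fin (s + 3)) ℂ))) (P : Pt X)
      (B : Fin 1 → WeilDiv X), IsNormal X ∧ X.d = s + 3 ∧
      ∀ c : Fin 1 → ℝ, 1 / 2 ≤ c 0 → c 0 ≤ 1 → Nonempty (LocalEq B c P) ∧
        ∀ e : LocalEq B c P, IsLeast {a | ∃ v, IsOverGerm P v ∧ LogDisc e v a} (mu k l s (c 0)) := by
  classical
  have hkl : 8 ≤ k * l := by nlinarith
  have hr : (0 : ℤ) < k * l - 1 := by omega
  set K := FractionRing (MvPolynomial (Fin (s + 3)) ℂ) with hK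
  obtain ⟨g, h, hE⟩ := exists_germ (K := K) (n := s + 3) (by omega) (EE_prim k l s) (EE_edge hr s)
    (EE_pointed hr s) (EE_full hr s)
  let Q : Fin g.N → Fin (s + 3) → ℤ := fun i => QQ k l s (Fin.cast h.symm i)
  have hE' : ∀ i, g.E i = EE k l s (Fin.cast h.symm i) := by
    intro i
    rw [← hE]
    rfl
  have hQ : ∀ i j, pr (Q i) (g.E j) = if j = i then k * l - 1 else 0 := by
    intro i j
    rw [hE']
    change pr (QQ k l s _) _ = _
    rw [QQ_EE]
    congr 1
    apply propext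
    constructor
    · intro h1
      exact Fin.cast_injective _ h1
    · rintro rfl
      rfl
  let i0 : Fin g.N := Fin.cast h 0
  obtain ⟨w0, hw0, htw0⟩ := exists_mon (K := K) (g.prim i0)
  let B : Fin 1 → WeilDiv g.X := fun _ =>
    { n := 1, D := fun _ => w0, on := fun _ => ToricGerm.local_E hw0 htw0, a := fun _ => 1 }
  have hcomb : ∀ (c : Fin 1 → ℝ) (v : DVal K), combMult B c v =
      if SameDiv v w0 then c 0 else 0 := by
    intro c v
    rw [combMult, Fin.sum_univ_one, WeilDiv.mult]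
    change c 0 * ((∑ _i : Fin 1, if SameDiv v w0 then 1 else 0 : ℕ) : ℝ) = _
    rw [Fin.sum_univ_one]
    split_ifs <;> simp
  have hQ0 : ∀ i, g.E i ≠ 0 := by
    intro i h0
    have := hQ i i
    rw [h0, if_pos rfl] at this
    have h1 : pr (Q i) 0 = 0 := by simp [pr]
    omega
  have hβ : ∀ (c : Fin 1 → ℝ) (w : DVal K) (i : Fin g.N), IsMonomial (s + 3) w →
      (tv w : Fin (s + 3) → ℤ) = g.E i → combMult B c w = if i = i0 then c 0 else 0 := by
    intro c w i hw htw
    rw [hcomb]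
    by_cases hi : i = i0
    · rw [if_pos hi, if_pos]
      exact sameDiv_of_tv hw hw0 (by rw [htw, htw0, hi])
    · rw [if_neg hi, if_neg]
      intro hsd
      have h1 := (SameDiv.monomial hsd hw0).2
      rw [htw, htw0] at h1
      have h2 := hQ i i
      rw [h1, hQ, if_pos rfl, if_neg (Ne.symm hi)] at h2
      omega
  have hB : ∀ (c : Fin 1 → ℝ) (w : DVal K), (tv w : Fin (s + 3) → ℤ) = 0 →
      combMult B c w = 0 := by
    intro c w htw
    rw [hcomb, if_neg]
    intro hsd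
    have h1 := (SameDiv.monomial hsd hw0).2
    rw [htw, htw0] at h1
    exact hQ0 i0 h1.symm
  have hsum : ∀ (c : ℝ) (u : Fin (s + 3) → ℤ), ∑ i, (pr (Q i) u : ℝ) / ((k * l - 1 : ℤ) : ℝ) *
      (1 - if i = i0 then c else 0) = ∑ i : Fin (s + 3), (pr (QQ k l s i) u : ℝ) /
        ((k * l - 1 : ℤ) : ℝ) * (1 - if i = 0 then c else 0) := by
    intro c u
    refine Fintype.sum_equiv (finCongr h.symm) _ _ fun i => ?_
    have h1 : (i = i0) = (finCongr h.symm i = 0) := by
      apply propext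
      constructor
      · rintro rfl
        rfl
      · intro h1
        apply (finCongr h.symm).injective
        rw [h1]
        rfl
    simp only [h1]
    rfl
  refine ⟨g.X, g.P, B, normal g, ?_, fun c hc1 hc2 => ⟨⟨mkEq hr hQ _ (hβ c) (hB c)⟩, fun e => ?_⟩⟩
  · have := Fintype.card_congr g.e
    simpa using this
  constructor
  · -- the minimum is attained
    have hatt : ∀ a b : ℤ, 0 < (k * l - 1) * 1 - (a + l * b) - 2 * (k * a + b) → 0 < a + l * b →
        0 < k * a + b → ∃ v, IsOverGerm g.P v ∧ LogDisc e v ((1 - c 0) * 1 +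
          (c 0 * ((a : ℝ) + l * b) + (2 * c 0 - 1) * ((k : ℝ) * a + b)) / ((k : ℝ) * l - 1) +
            s) := by
      intro a b h1 h2 h3
      have hpr : Prim (vec 1 a b (fun _ : Fin s => (1 : ℤ))) := ⟨vec 1 0 0 0, by
        rw [pr_vec]; simp⟩
      obtain ⟨v, hv, htv⟩ := exists_mon (K := K) hpr
      have hpos : ∀ i, 0 < pr (QQ k l s i) (vec 1 a b (fun _ : Fin s => (1 : ℤ))) := by
        intro i
        induction i using fin3_cases with
        | h0 => rw [pr_Q0]; exact h1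
        | h1 => rw [pr_Q1]; exact h2
        | h2 => rw [pr_Q2]; exact h3
        | h3 i => rw [pr_Q3]; omega
      have hin : g.Inter (tv v) := inter_of_pos hr hQ fun i => by rw [htv]; exact hpos _
      have hov := ToricGerm.overGerm hv hin
      refine ⟨v, hov, ?_⟩
      have := logDisc_tor e hr hQ _ (hβ c) (hB c) hov hv
      rw [hsum, htv, phi_eq hr] at this
      simpa using this
    have e1 : mu k l s (c 0) = min ((1 - c 0) * 1 +
          (c 0 * (((1 : ℤ) : ℝ) + l * ((0 : ℤ) : ℝ)) + (2 * c 0 - 1) *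
            ((k : ℝ) * ((1 : ℤ) : ℝ) + ((0 : ℤ) : ℝ))) / ((k : ℝ) * l - 1) + s)
        ((1 - c 0) * 1 +
          (c 0 * (((0 : ℤ) : ℝ) + l * ((1 : ℤ) : ℝ)) + (2 * c 0 - 1) *
            ((k : ℝ) * ((0 : ℤ) : ℝ) + ((1 : ℤ) : ℝ))) / ((k : ℝ) * l - 1) + s) := by
      have hr' : (0 : ℝ) < (k : ℝ) * l - 1 := by exact_mod_cast hr
      rw [mu, ← min_div_div_right hr'.le, min_add_add_right, min_add_add_left, mul_one]
      push_cast
      congr 3 <;> ring
    rcases min_choice ((1 - c 0) * 1 +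
          (c 0 * (((1 : ℤ) : ℝ) + l * ((0 : ℤ) : ℝ)) + (2 * c 0 - 1) *
            ((k : ℝ) * ((1 : ℤ) : ℝ) + ((0 : ℤ) : ℝ))) / ((k : ℝ) * l - 1) + s)
        ((1 - c 0) * 1 +
          (c 0 * (((0 : ℤ) : ℝ) + l * ((1 : ℤ) : ℝ)) + (2 * c 0 - 1) *
            ((k : ℝ) * ((0 : ℤ) : ℝ) + ((1 : ℤ) : ℝ))) / ((k : ℝ) * l - 1) + s) with h1 | h1
    · rw [e1, h1]
      exact hatt 1 0 (by nlinarith) (by omega) (by omega)
    · rw [e1, h1]
      exact hatt 0 1 (by nlinarith) (by omega) (by omega)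
  · rintro a ⟨v, hv, ha⟩
    have h1 := logDisc_ge e hr hQ _ (hβ c) (hB c) hv ha
    rw [hsum] at h1
    refine le_trans ?_ h1
    have hin := ToricGerm.inter_of_over (n := s + 3) hv
    have hpos : ∀ i, 0 < pr (QQ k l s i) (tv v) := by
      intro i
      have h2 := simp_pos hr hQ hin (Fin.cast h i)
      have h3 : (0 : ℝ) < ((k * l - 1 : ℤ) : ℝ) := by exact_mod_cast hr
      have h4 := (div_pos_iff_of_pos_right h3).1 h2
      exact_mod_cast h4
    obtain ⟨j, a', b, u, htv⟩ := exists_vec (tv v : Fin (s + 3) → ℤ)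
    rw [htv, phi_eq hr]
    rw [htv] at hpos
    refine ineq hk hl hc1 hc2 ?_ ?_ ?_ fun i => ?_
    · have := hpos 0
      rwa [pr_Q0] at this
    · have := hpos (Fin.succ 0)
      rwa [pr_Q1] at this
    · have := hpos (Fin.succ (Fin.succ 0))
      rwa [pr_Q2] at this
    · have := hpos i.succ.succ.succ
      rw [pr_Q3] at this
      exact (mul_pos_iff_of_pos_left hr).1 this

end Pool.Agent.Q42.UP
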